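import Pool.Agent.CluTwo.Region

/-!
# The superunitary region in rank two

For every cluster algebra of rank two without coefficients and of infinite type, and for every good
basis of it, the superunitary region is cut out by the real indecomposable elements of the basis, and
even by the cluster variables alone.

The definitions are in `Pool/Agent/CluTwo/Defs.lean`.
-/

namespace Pool.Agent.Results.MP_fc212e_co.RankTwo

open Pool.Agent.CluTwo

theorem result (F : Type) [Field F] (b c : ℕ) (hbc : 4 ≤ b * c) (x : ℤ → F)
    (hx : IsRankTwo b c x) (ι : Type) (β : Module.Basis ι ℤ (clusterAlgebra x))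
    (hβ : IsGoodBasis x β) :
    superunitary β = realSuperunitary β ∧ superunitary β = {p | ∀ m, 1 ≤ p (cv x m)} := by
  refine ⟨Set.ext fun p => region_eq hx hbc hβ p, Set.ext fun p => ⟨fun h m => ?_, fun h i => ?_⟩⟩
  · obtain ⟨i, hi⟩ := hβ.monomials m 1 0
    have h1 : β i = cv x m := Subtype.ext (by rw [hi]; simp [cv])
    rw [← h1]
    exact h i
  · exact one_le_basis hx hbc hβ p h i

end Pool.Agent.Results.MP_fc212e_co.RankTwo
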